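import Pool.Agent.H948.HS.Stm

/-!
# PACK: self-avoiding walks with bounded oscillation have boundedly many steps
-/

set_option autoImplicit false

namespace Pool.Agent.H176.HS

open MeasureTheory ProbabilityTheory Set Filter Metric
open scoped ENNReal NNReal Topology RealInnerProductSpace
open Pool.Agent.H948.HS

theorem norm_le_of_coord {m : ℕ} {x : E m} {s : ℝ} (hs : 0 < s) (h : ∀ r, |x r| < s) :
    ‖x‖ ≤ (m + 1) * s := by
  have h1 : ‖x‖ ^ 2 ≤ ((m + 1) * s) ^ 2 := by
    rw [EuclideanSpace.norm_sq_eq]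
    have h2 : ∑ i, ‖x i‖ ^ 2 ≤ ∑ _i : Fin (m + 1), s ^ 2 := by
      refine Finset.sum_le_sum fun i _ => ?_
      have := (h i).le
      rw [Real.norm_eq_abs]
      gcongr
    refine h2.trans ?_
    simp only [Finset.sum_const, Finset.card_univ, Fintype.card_fin, nsmul_eq_mul]
    push_cast
    have hm : (1 : ℝ) ≤ (m : ℝ) + 1 := by
      have : (0 : ℝ) ≤ m := Nat.cast_nonneg m
      linarith
    nlinarith [sq_nonneg s, mul_nonneg (by linarith : (0:ℝ) ≤ (m:ℝ)+1) (sq_nonneg s)]
  exact le_of_sq_le_sq h1 (by positivity)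

theorem s_pack : S_PACK := by
  intro m c s hc hs
  have hcomp : IsCompact (closedBall (0 : E m) ((m + 1) * s)) := isCompact_closedBall _ _
  obtain ⟨t, ht, hcov⟩ := Metric.totallyBounded_iff.1 hcomp.totallyBounded (c / 2) (half_pos hc)
  refine ⟨ht.toFinset.card, fun n hn => ?_⟩
  rw [Set.eq_empty_iff_forall_notMem]
  intro u hu
  obtain ⟨hsaw, hosc⟩ := hu
  have hmem : ∀ j ∈ Finset.range (n + 1), ∃ y ∈ ht.toFinset, S u 0 j ∈ ball y (c / 2) := by
    intro j hj
    have h1 : S u 0 j ∈ closedBall (0 : E m) ((m + 1) * s) := by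
      rw [mem_closedBall_zero_iff]
      exact norm_le_of_coord hs fun r => hosc r r.2 0 j (Nat.zero_le _)
        (Nat.lt_succ_iff.1 (Finset.mem_range.1 hj))
    have h2 := hcov h1
    simp only [mem_iUnion] at h2
    obtain ⟨y, hy, hy2⟩ := h2
    exact ⟨y, ht.mem_toFinset.2 hy, hy2⟩
  choose! f hf1 hf2 using hmem
  obtain ⟨i, hi, j, hj, hne, hij⟩ := Finset.exists_ne_map_eq_of_card_lt_of_maps_to
    (s := Finset.range (n + 1)) (t := ht.toFinset) (by rw [Finset.card_range]; omega) hf1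
  wlog hlt : i < j generalizing i j
  · exact this j hj i hi hne.symm hij.symm (lt_of_le_of_ne (not_lt.1 hlt) hne.symm)
  have h1 := hf2 i hi
  have h2 := hf2 j hj
  rw [← hij] at h2
  have h3 : dist (S u 0 j) (S u 0 i) < c := by
    have := dist_triangle_right (S u 0 j) (S u 0 i) (f i)
    rw [mem_ball] at h1 h2
    linarith
  have h4 : S u 0 j - S u 0 i = S u i j := by
    rw [← S_add u (Nat.zero_le i) hlt.le]; abel
  rw [dist_eq_norm, h4] at h3
  exact absurd (hsaw i j hlt (Nat.lt_succ_iff.1 (Finset.mem_range.1 hj))) (not_lt.2 h3.le)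

end Pool.Agent.H176.HS
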